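import Pool.Agent.H73.OX.Targets

/-!
# MP_c62aed_lc, row CNX: number of tables whose rows in `I` lie in `V`
-/

set_option autoImplicit false

namespace Pool.Agent.H42.KXX

open Finset Pool.Agent.H73.OX

theorem pf_CNX : S_CNX := by
  classical
  intro R k N I V
  have h0 : (univ.filter (fun f : Fin R → Fin k → Fin N => ∀ i ∈ I, ∀ r, f i r ∈ V)) =
      Fintype.piFinset (fun i : Fin R =>
        if i ∈ I then Fintype.piFinset (fun _ : Fin k => V) else univ) := by
    ext f
    rw [mem_filter, Fintype.mem_piFinset]
    constructor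
    · rintro ⟨-, h⟩ i
      by_cases hi : i ∈ I
      · rw [if_pos hi, Fintype.mem_piFinset]
        exact h i hi
      · rw [if_neg hi]
        exact mem_univ _
    · intro h
      refine ⟨mem_univ _, fun i hi => ?_⟩
      have h1 := h i
      rw [if_pos hi, Fintype.mem_piFinset] at h1
      exact h1
  have h1 : ∀ a : ℕ, ∏ i : Fin R, (if i ∈ I then a ^ k else 1) = a ^ (k * I.card) := by
    intro a
    rw [Finset.prod_ite_mem, Finset.univ_inter, Finset.prod_const, ← pow_mul]
  have h2 : (Fintype.piFinset (fun i : Fin R =>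
        if i ∈ I then Fintype.piFinset (fun _ : Fin k => V) else univ)).card =
      ∏ i : Fin R, (if i ∈ I then V.card ^ k else N ^ k) := by
    rw [Fintype.card_piFinset]
    refine Finset.prod_congr rfl fun i _ => ?_
    by_cases hi : i ∈ I
    · rw [if_pos hi, if_pos hi, Fintype.card_piFinset, Finset.prod_const, Finset.card_univ,
        Fintype.card_fin]
    · rw [if_neg hi, if_neg hi, Finset.card_univ, Fintype.card_fun, Fintype.card_fin,
        Fintype.card_fin]
  rw [h0, h2, ← h1 N, ← h1 V.card, ← Finset.prod_mul_distrib]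
  have h3 : N ^ (k * R) = ∏ i : Fin R, N ^ k := by
    rw [Finset.prod_const, Finset.card_univ, Fintype.card_fin, ← pow_mul]
  rw [h3, ← Finset.prod_mul_distrib]
  refine Finset.prod_congr rfl fun i _ => ?_
  by_cases hi : i ∈ I
  · rw [if_pos hi, if_pos hi, if_pos hi, mul_comm]
  · rw [if_neg hi, if_neg hi, if_neg hi]

end Pool.Agent.H42.KXX
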