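import Pool.Agent.H73.OX.Targets

/-!
# MP_c62aed_lc, row NUX: the numerical inequality for the expansion of the outer system
-/

set_option autoImplicit false

namespace Pool.Agent.H42.KXX

open Finset Pool.Agent.H73.OX

lemma nux_choose_le (n m : ℕ) (hm : 1 ≤ m) :
    (n.choose m : ℝ) ≤ (Real.exp 1 * n / m) ^ m := by
  have hm0 : (0 : ℝ) < m := by exact_mod_cast hm
  have hf : (0 : ℝ) < (m.factorial : ℝ) := by exact_mod_cast m.factorial_pos
  have h1 : (n.choose m : ℝ) ≤ (n : ℝ) ^ m / m.factorial := Nat.choose_le_pow_div m n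
  have h2 : (m : ℝ) ^ m / m.factorial ≤ Real.exp m :=
    Real.pow_div_factorial_le_exp m hm0.le m
  have h3 : (n : ℝ) ^ m / m.factorial = (n / m : ℝ) ^ m * ((m : ℝ) ^ m / m.factorial) := by
    rw [div_pow]
    field_simp
  have h4 : (Real.exp 1 * n / m) ^ m = (n / m : ℝ) ^ m * Real.exp m := by
    have h5 : Real.exp 1 ^ m = Real.exp m := by
      rw [← Real.exp_nat_mul, mul_one]
    rw [← h5, mul_div_assoc, mul_pow, mul_comm]
  rw [h4]
  rw [h3] at h1
  exact h1.trans (mul_le_mul_of_nonneg_left h2 (by positivity))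

/-- the real inequality -/
lemma nux_real (k s v : ℕ) (c u w κ : ℝ) (hk : 3 ≤ k) (hc : 0 < c) (hu : 0 < u) (hu1 : u ≤ 1)
    (hw : 0 < w) (hκ : κ = (2 * k + 1 : ℝ) / 4) (hwκ : w ≤ κ * u) (hκu : κ * u ≤ 1)
    (hv : 4 * v ≤ (2 * k + 1) * s)
    (hc0 : c ^ 4 * Real.exp 1 ^ (2 * k + 1) * κ ^ (2 * k - 1) * u ≤ 1) :
    (c / u) ^ s * Real.exp 1 ^ v * w ^ (k * s - v) ≤ 1 := by
  have hκ0 : 0 < κ := by rw [hκ]; positivity
  have hvk : v ≤ k * s := by
    have : (2 * k + 1) * s ≤ 4 * (k * s) := by nlinarith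
    omega
  have he : (1 : ℝ) ≤ Real.exp 1 := Real.one_le_exp (by norm_num)
  have h4 : ((c / u) ^ s * Real.exp 1 ^ v * w ^ (k * s - v)) ^ 4 ≤ 1 := by
    have e1 : ((c / u) ^ s * Real.exp 1 ^ v * w ^ (k * s - v)) ^ 4 =
        ((c / u) ^ 4) ^ s * Real.exp 1 ^ (4 * v) * w ^ (4 * (k * s - v)) := by
      rw [mul_pow, mul_pow, ← pow_mul, ← pow_mul, ← pow_mul, ← pow_mul, mul_comm s 4,
        mul_comm v 4, mul_comm (k * s - v) 4]
    have e2 : Real.exp 1 ^ (4 * v) ≤ (Real.exp 1 ^ (2 * k + 1)) ^ s := by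
      rw [← pow_mul]
      exact pow_le_pow_right₀ he hv
    have e3 : w ^ (4 * (k * s - v)) ≤ ((κ * u) ^ (2 * k - 1)) ^ s := by
      have h5 : (2 * k - 1) * s ≤ 4 * (k * s - v) := by
        have h6 : (2 * k - 1) * s + (2 * k + 1) * s = 4 * (k * s) := by
          obtain ⟨j, rfl⟩ : ∃ j, k = j + 3 := ⟨k - 3, by omega⟩
          have : 2 * (j + 3) - 1 = 2 * j + 5 := by omega
          rw [this]
          ring
        omega
      calc w ^ (4 * (k * s - v)) ≤ (κ * u) ^ (4 * (k * s - v)) :=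
            pow_le_pow_left₀ hw.le hwκ _
        _ ≤ (κ * u) ^ ((2 * k - 1) * s) :=
            pow_le_pow_of_le_one (by positivity) hκu h5
        _ = ((κ * u) ^ (2 * k - 1)) ^ s := pow_mul _ _ _
    have e4 : (c / u) ^ 4 * Real.exp 1 ^ (2 * k + 1) * (κ * u) ^ (2 * k - 1) ≤ 1 := by
      have h5 : u ^ (2 * k - 1) = u ^ 4 * (u * u ^ (2 * k - 6)) := by
        rw [← pow_succ', ← pow_add]
        congr 1
        omega
      have h6 : u ^ (2 * k - 6) ≤ 1 := pow_le_one₀ hu.le hu1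
      have h7 : (c / u) ^ 4 * Real.exp 1 ^ (2 * k + 1) * (κ * u) ^ (2 * k - 1) =
          (c ^ 4 * Real.exp 1 ^ (2 * k + 1) * κ ^ (2 * k - 1) * u) * u ^ (2 * k - 6) := by
        rw [mul_pow, h5, div_pow]
        field_simp
      rw [h7]
      exact mul_le_one₀ hc0 (by positivity) h6
    rw [e1]
    calc ((c / u) ^ 4) ^ s * Real.exp 1 ^ (4 * v) * w ^ (4 * (k * s - v))
        ≤ ((c / u) ^ 4) ^ s * (Real.exp 1 ^ (2 * k + 1)) ^ s * ((κ * u) ^ (2 * k - 1)) ^ s := by
          gcongr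
      _ = ((c / u) ^ 4 * Real.exp 1 ^ (2 * k + 1) * (κ * u) ^ (2 * k - 1)) ^ s := by
          rw [mul_pow _ ((κ * u) ^ (2 * k - 1)) s, mul_pow _ (Real.exp 1 ^ (2 * k + 1)) s]
      _ ≤ 1 := pow_le_one₀ (by positivity) e4
  by_contra hcon
  push Not at hcon
  exact absurd h4 (not_le.2 (one_lt_pow₀ hcon (by norm_num)))

theorem pf_NUX : S_NUX := by
  intro k C E₀ hk hC
  set κ : ℝ := (2 * k + 1 : ℝ) / 4 with hκ
  set c : ℝ := 2 * (Real.exp 1 * C) with hc
  have hCr : (1 : ℝ) ≤ C := by exact_mod_cast hC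
  have hc0 : 0 < c := by positivity
  have hκ0 : 0 < κ := by positivity
  obtain ⟨E1, hE1⟩ := exists_nat_ge (2 * (c ^ 4 * Real.exp 1 ^ (2 * k + 1) * κ ^ (2 * k - 1)))
  refine ⟨max (max E₀ (2 * k + 1)) (max E1 1), le_trans (le_max_left _ _) (le_max_left _ _),
    le_trans (le_max_right _ _) (le_max_right _ _), ?_⟩
  set E := max (max E₀ (2 * k + 1)) (max E1 1) with hE
  have hEk : 2 * k + 1 ≤ E := le_trans (le_max_right _ _) (le_max_left _ _)
  have hEE1 : E1 ≤ E := le_trans (le_max_left _ _) (le_max_right _ _)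
  intro N s hs hEs
  have hN : 1 ≤ N := by
    by_contra h
    have h0 : N = 0 := by omega
    rw [h0] at hEs
    have : 1 ≤ E * s := Nat.mul_pos (by omega) (by omega)
    omega
  set v := (2 * k + 1) * s / 4 with hv
  have hv4 : 4 * v ≤ (2 * k + 1) * s := Nat.mul_div_le _ _
  have hv1 : 1 ≤ v := by
    have h1 : 7 ≤ (2 * k + 1) * s := by nlinarith
    omega
  have hvk : v ≤ k * s := by
    have : (2 * k + 1) * s ≤ 4 * (k * s) := by nlinarith
    omega
  have hNr : (0 : ℝ) < N := by exact_mod_cast hN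
  have hsr : (0 : ℝ) < s := by exact_mod_cast hs
  have hvr : (0 : ℝ) < v := by exact_mod_cast hv1
  have hEr : (0 : ℝ) < E := by
    have : 1 ≤ E := by omega
    exact_mod_cast this
  have hEsr : (E : ℝ) * s ≤ 2 * N := by exact_mod_cast hEs
  have hu : 0 < (s / N : ℝ) := by positivity
  have huE : (s / N : ℝ) ≤ 2 / E := by
    rw [div_le_div_iff₀ hNr hEr]
    linarith
  have hEk2 : ((2 * k + 1 : ℕ) : ℝ) ≤ E := by exact_mod_cast hEk
  push_cast at hEk2
  have hkr : (3 : ℝ) ≤ k := by exact_mod_cast hk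
  have hu1 : (s / N : ℝ) ≤ 1 := by
    refine huE.trans ?_
    rw [div_le_one hEr]
    linarith
  have hw : (v / N : ℝ) ≤ κ * (s / N) := by
    have h1 : (4 : ℝ) * v ≤ (2 * k + 1) * s := by exact_mod_cast hv4
    rw [hκ, ← mul_div_assoc, div_le_div_iff_of_pos_right hNr]
    linarith
  have hκu : κ * (s / N) ≤ 1 := by
    calc κ * (s / N) ≤ κ * (2 / E) := mul_le_mul_of_nonneg_left huE hκ0.le
      _ = (2 * k + 1) / (2 * E) := by rw [hκ]; field_simp; ring
      _ ≤ 1 := by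
        rw [div_le_one (by positivity)]
        linarith
  have hc1 : c ^ 4 * Real.exp 1 ^ (2 * k + 1) * κ ^ (2 * k - 1) * (s / N : ℝ) ≤ 1 := by
    have h1 : 2 * (c ^ 4 * Real.exp 1 ^ (2 * k + 1) * κ ^ (2 * k - 1)) ≤ E :=
      hE1.trans (by exact_mod_cast hEE1)
    calc c ^ 4 * Real.exp 1 ^ (2 * k + 1) * κ ^ (2 * k - 1) * (s / N : ℝ)
        ≤ c ^ 4 * Real.exp 1 ^ (2 * k + 1) * κ ^ (2 * k - 1) * (2 / E) :=
          mul_le_mul_of_nonneg_left huE (by positivity)
      _ = (2 * (c ^ 4 * Real.exp 1 ^ (2 * k + 1) * κ ^ (2 * k - 1))) / E := by ring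
      _ ≤ 1 := by
        rw [div_le_one hEr]
        exact h1
  have key := nux_real k s v c (s / N) (v / N) κ hk hc0 hu hu1 (by positivity) hκ hw hκu hv4 hc1
  have hA := nux_choose_le (C * N) s hs
  have hB := nux_choose_le N v hv1
  have hfin : ((C * N).choose s : ℝ) * (N.choose v : ℝ) * (v : ℝ) ^ (k * s) * 2 ^ s ≤
      (N : ℝ) ^ (k * s) := by
    calc ((C * N).choose s : ℝ) * (N.choose v : ℝ) * (v : ℝ) ^ (k * s) * 2 ^ s
        ≤ (Real.exp 1 * ((C * N : ℕ) : ℝ) / s) ^ s * (Real.exp 1 * N / v) ^ v *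
            (v : ℝ) ^ (k * s) * 2 ^ s := by gcongr
      _ = (N : ℝ) ^ (k * s) *
            ((c / (s / N)) ^ s * Real.exp 1 ^ v * (v / N : ℝ) ^ (k * s - v)) := by
          have h1 : (v : ℝ) ^ (k * s) = (v : ℝ) ^ v * (v : ℝ) ^ (k * s - v) := by
            rw [← pow_add]
            congr 1
            omega
          have h2 : (N : ℝ) ^ (k * s) = (N : ℝ) ^ v * (N : ℝ) ^ (k * s - v) := by
            rw [← pow_add]
            congr 1
            omega
          have h3 : (c / (s / N)) ^ s =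
              (Real.exp 1 * ((C * N : ℕ) : ℝ) / s) ^ s * 2 ^ s := by
            rw [← mul_pow]
            congr 1
            rw [hc]
            push_cast
            field_simp
          have h4 : (Real.exp 1 * N / v) ^ v * (v : ℝ) ^ v = Real.exp 1 ^ v * (N : ℝ) ^ v := by
            rw [← mul_pow, ← mul_pow]
            congr 1
            field_simp
          have h5 : (v / N : ℝ) ^ (k * s - v) * (N : ℝ) ^ (k * s - v) =
              (v : ℝ) ^ (k * s - v) := by
            rw [← mul_pow]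
            congr 1
            field_simp
          rw [h3, h2]
          calc (Real.exp 1 * ((C * N : ℕ) : ℝ) / s) ^ s * (Real.exp 1 * N / v) ^ v *
                (v : ℝ) ^ (k * s) * 2 ^ s
              = (Real.exp 1 * ((C * N : ℕ) : ℝ) / s) ^ s * 2 ^ s *
                ((Real.exp 1 * N / v) ^ v * (v : ℝ) ^ v) * (v : ℝ) ^ (k * s - v) := by
                rw [h1]; ring
            _ = _ := by rw [h4, ← h5]; ring
      _ ≤ (N : ℝ) ^ (k * s) * 1 := mul_le_mul_of_nonneg_left key (by positivity)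
      _ = (N : ℝ) ^ (k * s) := mul_one _
  exact_mod_cast hfin

end Pool.Agent.H42.KXX
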